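import Mathlib

/-!
For every prime `p` with `p % 8 = 3` the equation `x ^ 2 - p * y ^ 2 = -2` is solvable.
-/

set_option autoImplicit false

namespace Pool.Agent.Y212.BK

lemma sq_mod_eight (x : ℤ) : x ^ 2 % 8 = 0 ∨ x ^ 2 % 8 = 1 ∨ x ^ 2 % 8 = 4 := by
  have h : x % 8 = 0 ∨ x % 8 = 1 ∨ x % 8 = 2 ∨ x % 8 = 3 ∨ x % 8 = 4 ∨ x % 8 = 5 ∨ x % 8 = 6 ∨
      x % 8 = 7 := by omega
  rcases h with h | h | h | h | h | h | h | h <;> simp [pow_two, Int.mul_emod, h]

/-- `p k * m` is `p` times a square and `p k`, `m` are coprime: both parts are squares. -/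
lemma split {p a b y : ℤ} (hp : Prime p) (hp0 : 0 < p) (ha : 0 < a) (hb : 0 < b)
    (hc : IsCoprime a b) (h : a * b = p * y ^ 2) :
    ∃ u v : ℤ, (a = u ^ 2 ∧ b = p * v ^ 2) ∨ (a = p * u ^ 2 ∧ b = v ^ 2) := by
  have hpd : p ∣ a * b := Dvd.intro _ h.symm
  have key : ∀ a b : ℤ, 0 < a → 0 < b → IsCoprime a b → a * b = p * y ^ 2 → p ∣ b →
      ∃ u v : ℤ, a = u ^ 2 ∧ b = p * v ^ 2 := by
    rintro a b ha hb hc h ⟨k, rfl⟩
    have hk : 0 < k := by
      rcases le_or_gt k 0 with hk | hk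
      · nlinarith
      · exact hk
    have h2 : a * k = y ^ 2 := by
      have : p * (a * k) = p * y ^ 2 := by rw [← h]; ring
      exact mul_left_cancel₀ hp0.ne' this
    have hc2 : IsCoprime a k := hc.of_mul_right_right
    obtain ⟨u, hu⟩ := Int.sq_of_isCoprime hc2 h2
    have h3 : k * a = y ^ 2 := by rw [mul_comm]; exact h2
    obtain ⟨v, hv⟩ := Int.sq_of_isCoprime hc2.symm h3
    refine ⟨u, v, ?_, ?_⟩
    · rcases hu with hu | hu
      · exact hu
      · nlinarith [sq_nonneg u]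
    · rcases hv with hv | hv
      · rw [hv]
      · nlinarith [sq_nonneg v]
  rcases hp.dvd_or_dvd hpd with h1 | h1
  · obtain ⟨u, v, h2, h3⟩ := key b a hb ha hc.symm (by rw [mul_comm]; exact h) h1
    exact ⟨v, u, Or.inr ⟨h3, h2⟩⟩
  · obtain ⟨u, v, h2, h3⟩ := key a b ha hb hc h h1
    exact ⟨u, v, Or.inl ⟨h2, h3⟩⟩

/-- `x ^ 2 - p y ^ 2` is `-2` for some `x`, `y`, if `p` is a prime with `p % 8 = 3`. -/
theorem exists_neg_two (p : ℕ) (hp : p.Prime) (h8 : p % 8 = 3) :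
    ∃ x y : ℤ, x ^ 2 - p * y ^ 2 = -2 := by
  have hp8 : (p : ℤ) % 8 = 3 := by omega
  have hpp : Prime (p : ℤ) := Nat.prime_iff_prime_int.1 hp
  have hp0 : (0 : ℤ) < p := by exact_mod_cast hp.pos
  have hns : ¬ IsSquare (p : ℤ) := by
    rintro ⟨r, hr⟩
    rcases sq_mod_eight r with h | h | h <;> rw [pow_two, ← hr, hp8] at h <;> norm_num at h
  -- a positive solution of the Pell equation with least `y`
  have hex : ∃ n : ℕ, 0 < n ∧ ∃ x : ℤ, 0 < x ∧ x ^ 2 - p * (n : ℤ) ^ 2 = 1 := by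
    obtain ⟨x, y, hxy, hy⟩ := Pell.exists_of_not_isSquare hp0 hns
    refine ⟨y.natAbs, Int.natAbs_pos.2 hy, |x|, ?_, ?_⟩
    · apply abs_pos.2
      rintro rfl
      nlinarith [sq_nonneg y]
    · rw [sq_abs, Int.natCast_natAbs, sq_abs]; exact hxy
  classical
  obtain ⟨hn0, x, hx0, hx⟩ := Nat.find_spec hex
  have hmin : ∀ m : ℕ, 0 < m → (∃ x : ℤ, x ^ 2 - p * (m : ℤ) ^ 2 = 1) → Nat.find hex ≤ m := by
    rintro m hm ⟨x, hx⟩
    apply Nat.find_min' hex
    refine ⟨hm, |x|, ?_, by rw [sq_abs]; exact hx⟩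
    apply abs_pos.2
    rintro rfl
    nlinarith [sq_nonneg (m : ℤ)]
  set n := Nat.find hex with hn
  have hn1 : (1 : ℤ) ≤ n := by exact_mod_cast hn0
  have hx1 : 1 < x := by
    by_contra hc
    have : x = 1 := by omega
    subst this
    nlinarith [sq_nonneg (n : ℤ), mul_pos hp0 (show (0 : ℤ) < (n : ℤ) ^ 2 by positivity)]
  rcases Int.even_or_odd x with ⟨t, ht⟩ | ⟨t, ht⟩
  · -- `x` even: `x - 1`, `x + 1` are coprime
    have hc : IsCoprime (x - 1) (x + 1) := ⟨t, 1 - t, by rw [ht]; ring⟩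
    obtain ⟨u, v, h | h⟩ := split hpp hp0 (a := x - 1) (b := x + 1) (y := n) (by omega) (by omega)
      hc (by linear_combination hx)
    · exact ⟨u, v, by rw [← h.1, ← h.2]; ring⟩
    · exfalso
      -- `v ^ 2 - p u ^ 2 = 2`, impossible modulo 8
      have h1 : v ^ 2 - p * u ^ 2 = 2 := by rw [← h.1, ← h.2]; ring
      have h2 : (p : ℤ) * u ^ 2 % 8 = (3 * (u ^ 2 % 8)) % 8 := by
        rw [Int.mul_emod, hp8]
      rcases sq_mod_eight v with h3 | h3 | h3 <;> rcases sq_mod_eight u with h4 | h4 | h4 <;>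
        rw [h4] at h2 <;> omega
  · -- `x = 2 t + 1`: `t (t + 1) = p (n / 2) ^ 2`
    have h1 : 4 * (t * (t + 1)) = p * (n : ℤ) ^ 2 := by
      have : x ^ 2 - 1 = p * (n : ℤ) ^ 2 := by linarith
      rw [← this, ht]; ring
    have hne : (2 : ℤ) ∣ n := by
      have h2 : (p : ℤ) * (n : ℤ) ^ 2 % 8 = (3 * ((n : ℤ) ^ 2 % 8)) % 8 := by
        rw [Int.mul_emod, hp8]
      have hev : (4 * (t * (t + 1))) % 8 = 0 := by
        rcases Int.even_or_odd t with ⟨s, hs⟩ | ⟨s, hs⟩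
        · have : 4 * (t * (t + 1)) = 8 * (s * (t + 1)) := by rw [hs]; ring
          rw [this]; simp
        · have : 4 * (t * (t + 1)) = 8 * (t * (s + 1)) := by
            have : t + 1 = 2 * (s + 1) := by rw [hs]; ring
            rw [this]; ring
          rw [this]; simp
      rw [h1, h2] at hev
      have h3 : (n : ℤ) ^ 2 % 8 ≠ 1 := by
        intro h; rw [h] at hev; norm_num at hev
      by_contra hc
      apply h3
      have h5 : (n : ℤ) % 8 = 1 ∨ (n : ℤ) % 8 = 3 ∨ (n : ℤ) % 8 = 5 ∨ (n : ℤ) % 8 = 7 := by omega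
      rcases h5 with h | h | h | h <;> simp [pow_two, Int.mul_emod, h]
    obtain ⟨m, hm⟩ := hne
    have h2 : t * (t + 1) = p * m ^ 2 := by
      have : 4 * (t * (t + 1)) = 4 * (p * m ^ 2) := by rw [h1, hm]; ring
      linarith
    have ht0 : 0 < t := by omega
    have hc : IsCoprime t (t + 1) := ⟨-1, 1, by ring⟩
    obtain ⟨u, v, h | h⟩ := split hpp hp0 (a := t) (b := t + 1) (y := m) ht0 (by omega) hc h2
    · exfalso
      -- `u ^ 2 - p v ^ 2 = -1`, impossible modulo 8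
      have h3 : u ^ 2 - p * v ^ 2 = -1 := by rw [← h.1, ← h.2]; ring
      have h4 : (p : ℤ) * v ^ 2 % 8 = (3 * (v ^ 2 % 8)) % 8 := by
        rw [Int.mul_emod, hp8]
      rcases sq_mod_eight u with h5 | h5 | h5 <;> rcases sq_mod_eight v with h6 | h6 | h6 <;>
        rw [h6] at h4 <;> omega
    · exfalso
      -- a smaller solution
      have h3 : v ^ 2 - p * u ^ 2 = 1 := by rw [← h.1, ← h.2]; ring
      have hu0 : u ≠ 0 := by
        rintro rfl
        have : t = 0 := by rw [h.1]; ring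
        omega
      have h4 := hmin u.natAbs (Int.natAbs_pos.2 hu0)
        ⟨v, by rw [Int.natCast_natAbs, sq_abs]; exact h3⟩
      have h5 : (n : ℤ) ≤ |u| := by
        rw [← Int.natCast_natAbs]; exact_mod_cast h4
      have h6 : (n : ℤ) ^ 2 ≤ u ^ 2 := by
        rw [← sq_abs u]
        exact pow_le_pow_left₀ (by omega) h5 2
      have h7 : (p : ℤ) * (n : ℤ) ^ 2 = 4 * (p * u ^ 2) * (t + 1) := by
        rw [← h1, ← h.1]; ring
      have h8 : 0 < (p : ℤ) * u ^ 2 := by rw [← h.1]; exact ht0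
      nlinarith

end Pool.Agent.Y212.BK
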