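import Pool.Agent.Y212.BK.Cyc
import Pool.Agent.Y212.BK.Pell

/-!
The fields `ℚ(√p)` for the primes `p` with `p % 8 = 3`.
-/

set_option autoImplicit false

open scoped NumberField
open Pool.Agent.H741R3.Byk

namespace Pool.Agent.Y212.BK

noncomputable section

variable (p : ℕ) [hp : Fact p.Prime]

instance fact_sqrt : Fact (∀ r : ℚ, r ^ 2 ≠ (p : ℚ) + 0 * r) := by
  constructor
  intro r hr
  have h1 : Irrational (√(p : ℕ)) := Nat.Prime.irrational_sqrt hp.out
  apply h1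
  refine ⟨|r|, ?_⟩
  have h2 : ((|r| : ℚ) : ℝ) ^ 2 = p := by
    have : (|r| : ℚ) ^ 2 = p := by rw [sq_abs, hr]; ring
    exact_mod_cast this
  have h3 : (0 : ℝ) ≤ ((|r| : ℚ) : ℝ) := by exact_mod_cast abs_nonneg r
  symm
  rw [Real.sqrt_eq_iff_mul_self_eq (by positivity) h3]
  push_cast at h2 ⊢
  linarith

/-- The field `ℚ(√p)`, as pairs `(re, im)` standing for `re + im √p`. -/
abbrev F : Type := QuadraticAlgebra ℚ (p : ℚ) 0

instance : NumberField (F p) where
  to_charZero := inferInstance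
  to_finiteDimensional := inferInstance

/-- The real embedding `re + im √p ↦ re + im t` with `t * t = p`. -/
def emb (t : ℝ) (ht : t * t = p) : F p →ₐ[ℚ] ℝ :=
  QuadraticAlgebra.lift ⟨t, by rw [ht]; simp [Algebra.smul_def]⟩

lemma emb_apply (t : ℝ) (ht : t * t = p) (x : F p) : emb p t ht x = x.re + x.im * t := by
  change x.re • (1 : ℝ) + x.im • t = x.re + x.im * t
  simp [Algebra.smul_def]

lemma sqrt_mul : (√(p : ℝ)) * √(p : ℝ) = p := Real.mul_self_sqrt (by positivity)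
lemma neg_sqrt_mul : (-√(p : ℝ)) * (-√(p : ℝ)) = p := by rw [neg_mul_neg]; exact sqrt_mul p

lemma int_of_isIntegral {q : ℚ} (h : IsIntegral ℤ (q : ℝ)) : ∃ m : ℤ, (m : ℚ) = q := by
  have h1 : IsIntegral ℤ q := by
    have : IsIntegral ℤ (algebraMap ℚ ℝ q) := by simpa using h
    exact (isIntegral_algebraMap_iff (algebraMap ℚ ℝ).injective).1 this
  obtain ⟨m, hm⟩ := IsIntegrallyClosed.isIntegral_iff.1 h1
  exact ⟨m, by simpa using hm⟩

/-- trace and norm of an integer are integers -/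
lemma exists_trace_norm (x : F p) (hx : IsIntegral ℤ x) :
    ∃ P N : ℤ, (P : ℚ) = 2 * x.re ∧ (N : ℚ) = x.re ^ 2 - p * x.im ^ 2 := by
  have h1 : IsIntegral ℤ (emb p _ (sqrt_mul p) x) := hx.map (emb p _ (sqrt_mul p))
  have h2 : IsIntegral ℤ (emb p _ (neg_sqrt_mul p) x) := hx.map (emb p _ (neg_sqrt_mul p))
  have hs := h1.add h2
  have hq := h1.mul h2
  rw [emb_apply, emb_apply] at hs hq
  have e1 : ((x.re : ℝ) + x.im * √(p : ℝ) + (x.re + x.im * -√(p : ℝ)))
      = ((2 * x.re : ℚ) : ℝ) := by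
    push_cast; ring
  have e2 : ((x.re : ℝ) + x.im * √(p : ℝ)) * (x.re + x.im * -√(p : ℝ))
      = ((x.re ^ 2 - p * x.im ^ 2 : ℚ) : ℝ) := by
    push_cast
    have := sqrt_mul p
    linear_combination (-(x.im : ℝ) ^ 2) * this
  rw [e1] at hs
  rw [e2] at hq
  obtain ⟨P, hP⟩ := int_of_isIntegral hs
  obtain ⟨N, hN⟩ := int_of_isIntegral hq
  exact ⟨P, N, hP, hN⟩

/-- If `p % 4 = 3`, the norm of an integer of `ℚ(√p)` is not `-1`. -/
lemma norm_ne (h4 : p % 4 = 3) (P : ℤ) (y : ℚ) (h : ((P : ℚ) / 2) ^ 2 - p * y ^ 2 = -1) :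
    False := by
  -- `2 y` is an integer
  have hR : ∃ R : ℤ, (R : ℚ) = 2 * p * y := by
    apply int_of_isIntegral
    apply IsIntegral.of_pow (n := 2) (by norm_num)
    have : (((2 * p * y : ℚ) : ℝ)) ^ 2 = ((p * (P ^ 2 + 4) : ℤ) : ℝ) := by
      have h : ((2 * p * y : ℚ)) ^ 2 = ((p * (P ^ 2 + 4) : ℤ) : ℚ) := by
        push_cast
        linear_combination -4 * p * h
      exact_mod_cast h
    rw [this]
    exact isIntegral_algebraMap (R := ℤ) (x := p * (P ^ 2 + 4))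
  obtain ⟨R, hR⟩ := hR
  have hR2 : R ^ 2 = p * (P ^ 2 + 4) := by
    have h : ((R : ℚ)) ^ 2 = p * ((P : ℚ) ^ 2 + 4) := by
      rw [hR]
      linear_combination -4 * p * h
    exact_mod_cast h
  have hpp : Prime (p : ℤ) := Nat.prime_iff_prime_int.1 hp.out
  obtain ⟨Q, rfl⟩ : (p : ℤ) ∣ R := hpp.dvd_of_dvd_pow (Dvd.intro _ hR2.symm)
  have hQ : p * Q ^ 2 = P ^ 2 + 4 := by
    have : (p : ℤ) * (p * Q ^ 2) = p * (P ^ 2 + 4) := by rw [← hR2]; ring
    exact mul_left_cancel₀ hpp.ne_zero this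
  have hz : (P : ZMod p) ^ 2 = -4 := by
    have : ((p * Q ^ 2 : ℤ) : ZMod p) = ((P ^ 2 + 4 : ℤ) : ZMod p) := by rw [hQ]
    push_cast at this
    rw [ZMod.natCast_self, zero_mul] at this
    linear_combination -this
  have h2 : (2 : ZMod p) ≠ 0 := by
    intro h2
    have : ((2 : ℕ) : ZMod p) = 0 := by exact_mod_cast h2
    rw [ZMod.natCast_eq_zero_iff] at this
    have := Nat.le_of_dvd (by norm_num) this
    have := hp.out.two_le
    interval_cases p
    all_goals omega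
  have hsq : IsSquare (-1 : ZMod p) := by
    refine ⟨(P : ZMod p) / 2, ?_⟩
    field_simp
    linear_combination -hz
  exact (ZMod.exists_sq_eq_neg_one_iff.1 hsq) h4

/-- the embedding of the ring of integers with `√p ↦ t` -/
def re (t : ℝ) (ht : t * t = p) : 𝓞 (F p) →+* ℝ :=
  (emb p t ht).toRingHom.comp (algebraMap (𝓞 (F p)) (F p))

lemma re_apply (t : ℝ) (ht : t * t = p) (x : 𝓞 (F p)) :
    re p t ht x = (x : F p).re + (x : F p).im * t := by
  change emb p t ht (x : F p) = _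
  rw [emb_apply]

lemma unit_sign (h4 : p % 4 = 3) (u : (𝓞 (F p))ˣ) :
    0 < re p _ (sqrt_mul p) u * re p _ (neg_sqrt_mul p) u := by
  have hval : ∀ x : 𝓞 (F p), re p _ (sqrt_mul p) x * re p _ (neg_sqrt_mul p) x
      = (((x : F p).re ^ 2 - p * (x : F p).im ^ 2 : ℚ) : ℝ) := by
    intro x
    rw [re_apply, re_apply]
    push_cast
    have := sqrt_mul p
    linear_combination (-((x : F p).im : ℝ) ^ 2) * this
  obtain ⟨P, N, hP, hN⟩ := exists_trace_norm p (u : 𝓞 (F p)) (u : 𝓞 (F p)).isIntegral_coe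
  obtain ⟨P', N', hP', hN'⟩ := exists_trace_norm p ((u⁻¹ : (𝓞 (F p))ˣ) : 𝓞 (F p))
    ((u⁻¹ : (𝓞 (F p))ˣ) : 𝓞 (F p)).isIntegral_coe
  have h1 : re p _ (sqrt_mul p) u * re p _ (neg_sqrt_mul p) u = (N : ℝ) := by
    rw [hval, ← hN]; simp
  have h2 : re p _ (sqrt_mul p) ((u⁻¹ : (𝓞 (F p))ˣ) : 𝓞 (F p))
      * re p _ (neg_sqrt_mul p) ((u⁻¹ : (𝓞 (F p))ˣ) : 𝓞 (F p)) = (N' : ℝ) := by
    rw [hval, ← hN']; simp
  have h3 : N * N' = 1 := by
    have : (N : ℝ) * N' = 1 := by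
      rw [← h1, ← h2]
      have e1 : re p _ (sqrt_mul p) (u : 𝓞 (F p))
          * re p _ (sqrt_mul p) ((u⁻¹ : (𝓞 (F p))ˣ) : 𝓞 (F p)) = 1 := by
        rw [← map_mul, Units.mul_inv, map_one]
      have e2 : re p _ (neg_sqrt_mul p) (u : 𝓞 (F p))
          * re p _ (neg_sqrt_mul p) ((u⁻¹ : (𝓞 (F p))ˣ) : 𝓞 (F p)) = 1 := by
        rw [← map_mul, Units.mul_inv, map_one]
      calc _ = (re p _ (sqrt_mul p) (u : 𝓞 (F p))
          * re p _ (sqrt_mul p) ((u⁻¹ : (𝓞 (F p))ˣ) : 𝓞 (F p)))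
          * (re p _ (neg_sqrt_mul p) (u : 𝓞 (F p))
          * re p _ (neg_sqrt_mul p) ((u⁻¹ : (𝓞 (F p))ˣ) : 𝓞 (F p))) := by ring
        _ = 1 := by rw [e1, e2, one_mul]
    exact_mod_cast this
  rw [h1]
  rcases Int.eq_one_or_neg_one_of_mul_eq_one h3 with h | h
  · rw [h]; norm_num
  · exfalso
    apply norm_ne p h4 P (((u : 𝓞 (F p)) : F p)).im
    rw [hP]
    have : (N : ℚ) = -1 := by rw [h]; norm_num
    rw [← this, hN]
    ring

/-- The element `a + b √p` of the ring of integers. -/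
def elt (a b : ℤ) : 𝓞 (F p) :=
  ⟨⟨a, b⟩, by
    have h1 : (⟨a, b⟩ : F p) = algebraMap ℤ (F p) a + algebraMap ℤ (F p) b * ⟨0, 1⟩ := by
      ext <;> simp
    rw [h1]
    have h2 : IsIntegral ℤ (⟨0, 1⟩ : F p) := by
      apply IsIntegral.of_pow (n := 2) (by norm_num)
      have : (⟨0, 1⟩ : F p) ^ 2 = algebraMap ℤ (F p) p := by
        rw [pow_two]
        ext <;> simp
      rw [this]
      exact isIntegral_algebraMap
    exact (isIntegral_algebraMap.add (isIntegral_algebraMap.mul h2))⟩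

lemma ext' {x y : 𝓞 (F p)} (h : algebraMap (𝓞 (F p)) (F p) x = algebraMap (𝓞 (F p)) (F p) y) :
    x = y :=
  NumberField.RingOfIntegers.ext h

lemma coe_elt (a b : ℤ) : ((elt p a b : 𝓞 (F p)) : F p) = ⟨a, b⟩ := rfl

lemma adjoin_eq_top : IntermediateField.adjoin ℚ {(⟨0, 1⟩ : F p)} = ⊤ := by
  rw [eq_top_iff]
  intro x _
  have hx : x = algebraMap ℚ (F p) x.re + algebraMap ℚ (F p) x.im * ⟨0, 1⟩ := by
    ext <;> simp
  rw [hx]
  exact add_mem (IntermediateField.algebraMap_mem _ _)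
    (mul_mem (IntermediateField.algebraMap_mem _ _)
      (IntermediateField.mem_adjoin_simple_self ℚ _))

theorem fails (h8 : p % 8 = 3) : KernelHasInfiniteOrder (𝓞 (F p)) (F p) := by
  obtain ⟨x, y, hxy⟩ := exists_neg_two p hp.out h8
  have h4 : p % 4 = 3 := by omega
  -- a generator with positive first and negative second conjugate
  have key : ∀ x y : ℤ, x ^ 2 - p * y ^ 2 = -2 → 0 < (x : ℝ) + y * √(p : ℝ) →
      KernelHasInfiniteOrder (𝓞 (F p)) (F p) := by
    intro x y hxy hpos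
    have hr : ((x : ℝ) + y * √(p : ℝ)) * (x + y * -√(p : ℝ)) = -2 := by
      have h : ((x ^ 2 - p * y ^ 2 : ℤ) : ℝ) = -2 := by rw [hxy]; norm_num
      push_cast at h
      have := sqrt_mul p
      linear_combination h - (y : ℝ) ^ 2 * this
    refine criterion (F p) (re p _ (sqrt_mul p)) (re p _ (neg_sqrt_mul p)) (unit_sign p h4)
      (elt p x y) (elt p (-x) y) 1 ?_ ?_ ?_ ?_
    · apply ext'
      rw [map_mul]
      change (⟨x, y⟩ : F p) * ⟨((-x : ℤ) : ℚ), y⟩ = _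
      have hq : ((x : ℚ) ^ 2 - p * (y : ℚ) ^ 2) = -2 := by exact_mod_cast hxy
      have h1 : QuadraticAlgebra.re (1 : F p) = 1 := rfl
      have h2 : QuadraticAlgebra.im (1 : F p) = 0 := rfl
      rw [Units.val_one, map_add, map_one]
      ext
      · simp [h1]
        linarith
      · simp [h2]
        ring
    · rw [Units.val_one, map_one]; norm_num
    · rw [re_apply, coe_elt]
      simpa using hpos
    · rw [re_apply, coe_elt]
      have : (x : ℝ) + y * -√(p : ℝ) < 0 := by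
        by_contra hc
        push Not at hc
        nlinarith
      simpa using this
  rcases lt_trichotomy 0 ((x : ℝ) + y * √(p : ℝ)) with h | h | h
  · exact key x y hxy h
  · exfalso
    have hr : ((x : ℝ) + y * √(p : ℝ)) * (x + y * -√(p : ℝ)) = -2 := by
      have h : ((x ^ 2 - p * y ^ 2 : ℤ) : ℝ) = -2 := by rw [hxy]; norm_num
      push_cast at h
      have := sqrt_mul p
      linear_combination h - (y : ℝ) ^ 2 * this
    rw [← h] at hr
    norm_num at hr
  · refine key (-x) (-y) (by linarith) ?_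
    push_cast
    linarith

end

end Pool.Agent.Y212.BK
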