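import Pool.Agent.H741R3.BykCocycle

/-!
A closed chain of four bases, detected by the difference of two orientation cocycles.
-/

set_option autoImplicit false

open Pool.Agent.H741R3.Byk

namespace Pool.Agent.Y212.BK

variable {O : Type*} [CommRing O]

/-- A closed chain of four bases maps to zero. -/
lemma closed_four (K : Type*) [Field K] [Algebra O K]
    (b₁ b₂ b₃ b₄ : OrdBasis O 2) (h1 : b₁.v 1 = b₂.v 0) (h2 : b₂.v 1 = b₃.v 0)
    (h3 : b₃.v 1 = b₄.v 0) (h4 : b₄.v 1 = b₁.v 0) :
    bykToSteinberg O K 2 (toByk O 2 (FreeAbelianGroup.of b₁ + FreeAbelianGroup.of b₂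
      + FreeAbelianGroup.of b₃ + FreeAbelianGroup.of b₄)) = 0 := by
  have h : preMap O K 2 (FreeAbelianGroup.of b₁ + FreeAbelianGroup.of b₂
      + FreeAbelianGroup.of b₃ + FreeAbelianGroup.of b₄) = 0 := by
    apply Subtype.ext
    simp only [preMap, map_add, FreeAbelianGroup.lift_apply_of]
    change apartmentChain K b₁ + apartmentChain K b₂ + apartmentChain K b₃ + apartmentChain K b₄
      = 0
    simp only [apartmentChain_two]
    rw [flag_tel K b₁ b₂ h1, flag_tel K b₂ b₃ h2, flag_tel K b₃ b₄ h3, flag_tel K b₄ b₁ h4]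
    abel
  rw [bykToSteinberg_toByk, h, map_zero]

/-- The kernel of the natural map `Byk_2(O) → St_2(K)` has an element of infinite order. -/
def KernelHasInfiniteOrder (O : Type*) [CommRing O] (K : Type*) [Field K] [Algebra O K] : Prop :=
  ∃ z : BykGroup O 2, bykToSteinberg O K 2 z = 0 ∧ ∀ n : ℤ, n ≠ 0 → n • z ≠ 0

/-- If all units of `O` have the same sign at the real places `f`, `g`, and `1 + w` has a divisor
`a` with `f a > 0 > g a` for some unit `w` with `f w > 0`, then the kernel of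
`Byk_2(O) → St_2(K)` has an element of infinite order. -/
theorem criterion (K : Type*) [Field K] [Algebra O K] (f g : O →+* ℝ)
    (hu : ∀ u : Oˣ, 0 < f u * g u) (a b : O) (w : Oˣ) (hab : a * b = 1 + w)
    (hw : 0 < f w) (hf : 0 < f a) (hg : g a < 0) : KernelHasInfiniteOrder O K := by
  have hgw : 0 < g w := by
    have := hu w
    exact (mul_pos_iff_of_pos_left hw).1 this
  have u1 : IsUnit ((![1, 0] : Fin 2 → O) 0 * (![0, 1] : Fin 2 → O) 1
      - (![1, 0] : Fin 2 → O) 1 * (![0, 1] : Fin 2 → O) 0) := by simp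
  have u2 : IsUnit ((![0, 1] : Fin 2 → O) 0 * (![1, a] : Fin 2 → O) 1
      - (![0, 1] : Fin 2 → O) 1 * (![1, a] : Fin 2 → O) 0) := by simp
  have hd3 : (![1, a] : Fin 2 → O) 0 * (![b, 1] : Fin 2 → O) 1
      - (![1, a] : Fin 2 → O) 1 * (![b, 1] : Fin 2 → O) 0 = -(w : O) := by
    simp only [Matrix.cons_val_zero, Matrix.cons_val_one]
    linear_combination -hab
  have u3 : IsUnit ((![1, a] : Fin 2 → O) 0 * (![b, 1] : Fin 2 → O) 1
      - (![1, a] : Fin 2 → O) 1 * (![b, 1] : Fin 2 → O) 0) := by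
    rw [hd3]; exact w.isUnit.neg
  have u4 : IsUnit ((![b, 1] : Fin 2 → O) 0 * (![1, 0] : Fin 2 → O) 1
      - (![b, 1] : Fin 2 → O) 1 * (![1, 0] : Fin 2 → O) 0) := by simp
  have hzero := closed_four K (mkBasis _ _ u1) (mkBasis _ _ u2) (mkBasis _ _ u3) (mkBasis _ _ u4)
    (by rw [mkBasis_zero, mkBasis_one]) (by rw [mkBasis_zero, mkBasis_one])
    (by rw [mkBasis_zero, mkBasis_one]) (by rw [mkBasis_zero, mkBasis_one])
  refine ⟨_, hzero, fun n hn hz => hn ?_⟩
  rw [← map_zsmul] at hz
  have hmem := (QuotientAddGroup.eq_zero_iff _).1 hz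
  have hΦ := bykRel_le_ker_functional f g hu hmem
  rw [AddMonoidHom.mem_ker] at hΦ
  simp only [preFunctional, map_zsmul, map_add, FreeAbelianGroup.lift_apply_of] at hΦ
  have e1 : hdiff f g (mkBasis _ _ u1) = 0 := by
    simp [hdiff, hval, dt, mkBasis_zero, mkBasis_one, sg_zero]
  have e2 : hdiff f g (mkBasis _ _ u2) = -2 := by
    simp only [hdiff, hval, dt, mkBasis_zero, mkBasis_one, Matrix.cons_val_zero,
      Matrix.cons_val_one]
    simp only [map_sub, map_mul, map_one, map_zero]
    rw [sg_neg (by nlinarith), sg_pos (by nlinarith)]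
    norm_num
  have e3 : hdiff f g (mkBasis _ _ u3) = -2 := by
    have hd : dt (mkBasis _ _ u3) = -(w : O) := by
      unfold dt
      rw [mkBasis_zero, mkBasis_one]
      exact hd3
    simp only [hdiff, hval]
    rw [hd]
    simp only [mkBasis_zero, mkBasis_one, Matrix.cons_val_zero,
      Matrix.cons_val_one, map_neg, map_one, mul_one]
    rw [sg_neg (by nlinarith [mul_pos hf hw]), sg_pos (by nlinarith [mul_pos (neg_pos.2 hg) hgw])]
    norm_num
  have e4 : hdiff f g (mkBasis _ _ u4) = 0 := by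
    simp [hdiff, hval, dt, mkBasis_zero, mkBasis_one, sg_zero]
  rw [e1, e2, e3, e4] at hΦ
  norm_num at hΦ
  exact hΦ

/-- In particular the map is not injective. -/
lemma KernelHasInfiniteOrder.not_injective {K : Type*} [Field K] [Algebra O K]
    (h : KernelHasInfiniteOrder O K) : ¬ Function.Injective (bykToSteinberg O K 2) := by
  obtain ⟨z, hz, hn⟩ := h
  intro hinj
  have : z = 0 := hinj (hz.trans (map_zero _).symm)
  exact hn 1 one_ne_zero (by rw [this, smul_zero])

end Pool.Agent.Y212.BK
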